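import Pool.Agent.Q5.SH.Stm
import Pool.Agent.Q24.SG.CQ
import Pool.Agent.Q251.SG.QF

/-!
# Project SH (helper5), job KS: a field containing the `n`-th roots of the elements of `BT T n`
-/

set_option autoImplicit false

namespace Pool.Agent.Q198.SH

open NumberField IsDedekindDomain Module
open Pool.Agent.Q5.SH Pool.Agent.Q5.SG
open Pool.Agent.Q92.AR (Dv prin prin_mul prin_one prin_inv prin_div prinHom)

section
variable {K : Type} [Field K] [NumberField K]

theorem exists_spec (K : Type) [Field K] [NumberField K] : Nonempty (HeightOneSpectrum (𝓞 K)) := by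
  obtain ⟨M, hM⟩ := Ideal.exists_maximal (𝓞 K)
  refine ⟨⟨M, hM.isPrime, ?_⟩⟩
  exact Ring.ne_bot_of_isMaximal_of_not_isField hM (RingOfIntegers.not_isField K)

theorem prin_pow (x : Kˣ) (n : ℕ) (v : HeightOneSpectrum (𝓞 K)) : prin (x ^ n) v = n * prin x v := by
  induction n with
  | zero => rw [pow_zero, prin_one, Nat.cast_zero, zero_mul]; rfl
  | succ n ih =>
    rw [pow_succ, prin_mul, Finsupp.add_apply, ih]
    push_cast
    ring

theorem pow_mem_BT (T : Finset (HeightOneSpectrum (𝓞 K))) (n : ℕ) (k : Kˣ) : k ^ n ∈ BT T n := by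
  rw [mem_BT]
  intro v _
  rw [prin_pow]
  exact dvd_mul_right _ _

/-- elements whose divisor is divisible by `n` -/
theorem reps_all (n : ℕ) (hn : 0 < n) : ∃ X : Finset Kˣ, ∀ b : Kˣ, (∀ v, (n : ℤ) ∣ prin b v) →
    ∃ x ∈ X, ∃ k : Kˣ, b = x * k ^ n := by
  classical
  obtain ⟨𝔮⟩ := exists_spec K
  obtain ⟨T₁, -, h1⟩ := Pool.Agent.Q24.SG.t_CQ K 𝔮 n hn
  obtain ⟨B, hB⟩ := Pool.Agent.Q251.SG.qf K n hn
  obtain ⟨T₂, -, h2⟩ := hB 𝔮
  refine ⟨Finset.image₂ (· * ·) T₁ T₂, fun b hb => ?_⟩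
  obtain ⟨t, ht, η, hη, c, hc⟩ := h1 b (fun v _ => by
    obtain ⟨j, hj⟩ := hb v
    refine ⟨-j, ?_⟩
    rw [Pool.Agent.Q128.AR.val_prin, hj, mul_neg])
  obtain ⟨τ, hτ, θ, -, hθ⟩ := h2 η hη
  refine ⟨t * τ, Finset.mem_image₂_of_mem ht hτ, θ * c, ?_⟩
  rw [hc, hθ, mul_pow]
  simp only [mul_assoc]

/-- representatives of `BT T n` modulo `n`-th powers -/
theorem reps (T : Finset (HeightOneSpectrum (𝓞 K))) (n : ℕ) (hn : 0 < n) :
    ∃ X : Finset Kˣ, ∀ b ∈ BT T n, ∃ x ∈ X, x ∈ BT T n ∧ ∃ k : Kˣ, b = x * k ^ n := by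
  classical
  have : NeZero n := ⟨hn.ne'⟩
  obtain ⟨X₀, h0⟩ := reps_all (K := K) n hn
  let ρ : Kˣ → (T → ZMod n) := fun b v => ((prin b v.1 : ℤ) : ZMod n)
  let rep : (T → ZMod n) → Kˣ := fun r => if h : ∃ b ∈ BT T n, ρ b = r then h.choose else 1
  refine ⟨Finset.image₂ (· * ·) (Finset.univ.image rep) X₀, fun b hb => ?_⟩
  have hex : ∃ b' ∈ BT T n, ρ b' = ρ b := ⟨b, hb, rfl⟩
  have hrep : rep (ρ b) ∈ BT T n ∧ ρ (rep (ρ b)) = ρ b := by
    simp only [rep, dif_pos hex]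
    exact hex.choose_spec
  obtain ⟨h1, h2⟩ := hrep
  obtain ⟨x, hx, k, hk⟩ := h0 (b / rep (ρ b)) (fun v => by
    rw [prin_div, Finsupp.sub_apply]
    by_cases hv : v ∈ T
    · have h3 := congrFun h2 ⟨v, hv⟩
      simp only [ρ] at h3
      rw [← sub_eq_zero, ← Int.cast_sub, ZMod.intCast_zmod_eq_zero_iff_dvd] at h3
      rw [← neg_sub]
      exact (dvd_neg).2 h3
    · exact dvd_sub (hb v hv) (h1 v hv))
  have h4 : b = rep (ρ b) * x * k ^ n := by
    rw [mul_assoc, ← hk, mul_div_cancel]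
  refine ⟨rep (ρ b) * x, Finset.mem_image₂_of_mem (Finset.mem_image_of_mem _ (Finset.mem_univ _)) hx,
    ?_, k, h4⟩
  have h5 : rep (ρ b) * x = b / k ^ n := by
    rw [eq_div_iff_mul_eq']
    exact h4.symm
  rw [h5]
  exact (BT T n).div_mem hb (pow_mem_BT T n k)

/-- a number field containing given roots -/
theorem roots (n : ℕ) (hn : 0 < n) (X : Finset Kˣ) : ∃ (K' : Type) (_ : Field K') (_ : NumberField K')
    (_ : Algebra K K') (ζ : K') (r : Kˣ → K'), IsPrimitiveRoot ζ n ∧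
      ∀ x ∈ X, r x ^ n = algebraMap K K' (x : K) := by
  classical
  have hn0 : (n : AlgebraicClosure K) ≠ 0 := by exact_mod_cast hn.ne'
  have : NeZero (n : AlgebraicClosure K) := ⟨hn0⟩
  obtain ⟨ζ, hζ⟩ := HasEnoughRootsOfUnity.exists_primitiveRoot (AlgebraicClosure K) n
  have hroot : ∀ x : Kˣ, ∃ r : AlgebraicClosure K, r ^ n = algebraMap K (AlgebraicClosure K) (x : K) :=
    fun x => IsAlgClosed.exists_pow_nat_eq _ hn
  choose r hr using hroot
  let s : Set (AlgebraicClosure K) := insert ζ (r '' (X : Set Kˣ))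
  have hs : s.Finite := (X.finite_toSet.image r).insert ζ
  have : Finite s := hs
  let L : IntermediateField K (AlgebraicClosure K) := IntermediateField.adjoin K s
  have hfd : FiniteDimensional K L := by
    apply IntermediateField.finiteDimensional_adjoin
    intro x _
    exact Algebra.IsIntegral.isIntegral x
  have hnf : NumberField L := NumberField.of_module_finite K L
  have hζs : ζ ∈ L := IntermediateField.subset_adjoin K s (Set.mem_insert _ _)
  refine ⟨L, inferInstance, hnf, inferInstance, ⟨ζ, hζs⟩,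
    fun x => if h : r x ∈ L then ⟨r x, h⟩ else 0, ?_, fun x hx => ?_⟩
  · apply IsPrimitiveRoot.of_map_of_injective (f := algebraMap L (AlgebraicClosure K)) _
      (algebraMap L (AlgebraicClosure K)).injective
    exact hζ
  · have hx' : r x ∈ L := IntermediateField.subset_adjoin K s
      (Set.mem_insert_of_mem _ (Set.mem_image_of_mem _ hx))
    show (if h : r x ∈ L then (⟨r x, h⟩ : L) else 0) ^ n = _
    rw [dif_pos hx']
    apply Subtype.ext
    exact hr x

end

/-- JOB SH-KS -/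
theorem ks : Pool.Agent.Q5.SH.S_KS := by
  intro K _ _ T n hn
  classical
  obtain ⟨X, hX⟩ := reps T n hn
  refine ⟨⟨X, hX⟩, ?_⟩
  obtain ⟨K', i1, i2, i3, ζ, r, hζ, hr⟩ := roots n hn X
  choose! x hx hxB k hk using hX
  refine ⟨K', i1, i2, i3, ζ, fun b => r (x b) * algebraMap K K' (k b : K), hζ, fun b hb => ?_⟩
  show (r (x b) * algebraMap K K' (k b : K)) ^ n = _
  rw [mul_pow, hr _ (hx b hb), ← map_pow, ← map_mul]
  congr 1
  conv_rhs => rw [hk b hb]
  rw [Units.val_mul, Units.val_pow_eq_pow_val]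

end Pool.Agent.Q198.SH
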