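import Pool.Agent.Q5.SH.Stm
import Pool.Agent.Q222.SG.NP
import Pool.Agent.Q170.SG.UR0
import Pool.Agent.Q106.AR.NmB
import Pool.Agent.Q280.AR.Tow

/-!
# Project SH (helper5), job LL: an auxiliary extension for finitely many primes
-/

set_option autoImplicit false

namespace Pool.Agent.Q198.SH

open NumberField IsDedekindDomain Module
open Pool.Agent.Q5.SH Pool.Agent.Q5.SG
open Pool.Agent.Q92.AR (Dv prin nmD nu nmD_single)

section
variable {F E : Type} [Field F] [NumberField F] [Field E] [NumberField E] [Algebra F E]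

theorem nmD_zero_at (D : Dv E) (v : HeightOneSpectrum (𝓞 F))
    (h : ∀ w : HeightOneSpectrum (𝓞 E), w.under (𝓞 F) = v → D w = 0) : nmD F E D v = 0 := by
  classical
  have h1 : nmD F E D = D.sum (fun w k => nmD F E (Finsupp.single w k)) := by
    conv_lhs => rw [← Finsupp.sum_single D]
    rw [map_finsuppSum]
  rw [h1, Finsupp.sum, Finsupp.finsetSum_apply]
  apply Finset.sum_eq_zero
  intro w _
  rw [nmD_single, Finsupp.single_apply]
  split_ifs with h2
  · rw [h w h2, mul_zero]
  · rfl

/-- the norm of an element which is a unit above `v` is a unit at `v` -/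
theorem norm_unit (v : HeightOneSpectrum (𝓞 F)) (x : Eˣ)
    (h : ∀ w : HeightOneSpectrum (𝓞 E), w.under (𝓞 F) = v → w.valuation E (x : E) = 1) :
    v.valuation F (nu F E x : F) = 1 := by
  have h1 : prin (nu F E x) v = 0 := by
    rw [← (Pool.Agent.Q106.AR.nm F E).1 x]
    apply nmD_zero_at
    intro w hw
    have h2 := h w hw
    rw [Pool.Agent.Q128.AR.val_prin] at h2
    have h3 : WithZero.exp (-(prin x w)) = WithZero.exp (0 : ℤ) := by rw [h2, WithZero.exp_zero]
    have h4 := WithZero.exp_injective h3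
    omega
  rw [Pool.Agent.Q128.AR.val_prin, h1, neg_zero, WithZero.exp_zero]

end

section
variable {K L₁ L : Type} [Field K] [NumberField K] [Field L₁] [NumberField L₁] [Field L] [NumberField L]
  [Algebra K L₁] [Algebra L₁ L] [Algebra K L] [IsScalarTower K L₁ L]

theorem nu_tower (x : Lˣ) : nu K L₁ (nu L₁ L x) = nu K L x := by
  apply Units.ext
  show Algebra.norm K (Algebra.norm L₁ (x : L)) = Algebra.norm K (x : L)
  exact Algebra.norm_norm

end

/-- the property of `L` in `S_LL` -/
def Good (K : Type) [Field K] [NumberField K] (T : Finset (HeightOneSpectrum (𝓞 K)))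
    (L : Type) [Field L] [NumberField L] [Algebra K L] : Prop :=
  ∀ x : Lˣ, (∀ w : HeightOneSpectrum (𝓞 L), w.under (𝓞 K) ∈ T → w.valuation L (x : L) = 1) →
      ∀ t ∈ T, nu K L x ∈ OneAt t

/-- a composite of two extensions -/
theorem composite (K L₁ L₂ : Type) [Field K] [NumberField K] [Field L₁] [NumberField L₁] [Field L₂]
    [NumberField L₂] [Algebra K L₁] [Algebra K L₂] :
    ∃ (L : Type) (_ : Field L) (_ : NumberField L) (_ : Algebra K L) (e₁ : L₁ →ₐ[K] L) (e₂ : L₂ →ₐ[K] L),
      ∀ (Ω : Type) [Field Ω] [Algebra K Ω] (φ ψ : L →ₐ[K] Ω), (∀ x, φ (e₁ x) = ψ (e₁ x)) →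
        (∀ x, φ (e₂ x) = ψ (e₂ x)) → φ = ψ := by
  have f₁ : FiniteDimensional K L₁ := FiniteDimensional.right ℚ K L₁
  have f₂ : FiniteDimensional K L₂ := FiniteDimensional.right ℚ K L₂
  let e₁ : L₁ →ₐ[K] AlgebraicClosure K := IsAlgClosed.lift
  let e₂ : L₂ →ₐ[K] AlgebraicClosure K := IsAlgClosed.lift
  let L : IntermediateField K (AlgebraicClosure K) :=
    IntermediateField.adjoin K (Set.range e₁ ∪ Set.range e₂)
  have hL : L = e₁.fieldRange ⊔ e₂.fieldRange := by
    show IntermediateField.adjoin K (Set.range e₁ ∪ Set.range e₂) = _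
    rw [IntermediateField.adjoin_union]
    congr 1
    · exact IntermediateField.adjoin_self K e₁.fieldRange
    · exact IntermediateField.adjoin_self K e₂.fieldRange
  have g₁ : FiniteDimensional K e₁.fieldRange :=
    Module.Finite.equiv (AlgEquiv.ofInjectiveField e₁).toLinearEquiv
  have g₂ : FiniteDimensional K e₂.fieldRange :=
    Module.Finite.equiv (AlgEquiv.ofInjectiveField e₂).toLinearEquiv
  have hfd : FiniteDimensional K L := by
    rw [hL]
    infer_instance
  have hnf : NumberField L := NumberField.of_module_finite K L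
  have h1 : ∀ x, e₁ x ∈ L := fun x => IntermediateField.subset_adjoin K _ (Or.inl ⟨x, rfl⟩)
  have h2 : ∀ x, e₂ x ∈ L := fun x => IntermediateField.subset_adjoin K _ (Or.inr ⟨x, rfl⟩)
  refine ⟨L, inferInstance, hnf, inferInstance, e₁.codRestrict L.toSubalgebra h1,
    e₂.codRestrict L.toSubalgebra h2, ?_⟩
  intro Ω _ _ φ ψ hφ hψ
  apply IntermediateField.algHom_ext_of_eq_adjoin K (rfl : L = _)
  rintro x (⟨y, rfl⟩ | ⟨y, rfl⟩)
  · exact hφ y
  · exact hψ y

theorem under_tower {K L₁ L : Type} [Field K] [NumberField K] [Field L₁] [NumberField L₁] [Field L]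
    [NumberField L] [Algebra K L₁] [Algebra L₁ L] [Algebra K L] [IsScalarTower K L₁ L]
    (w : HeightOneSpectrum (𝓞 L)) : (w.under (𝓞 L₁)).under (𝓞 K) = w.under (𝓞 K) :=
  Pool.Agent.Q280.AR.under_under K L₁ L w

theorem tri {K L₁ L : Type} [Field K] [NumberField K] [Field L₁] [NumberField L₁] [Field L]
    [NumberField L] [Algebra K L₁] [Algebra L₁ L] [Algebra K L] [IsScalarTower K L₁ L]
    {v : HeightOneSpectrum (𝓞 K)} (h : InTriv K L₁ v) (Ω : Type) [Field Ω] [NumberField Ω]
    [Algebra K Ω] [Algebra L Ω] [IsScalarTower K L Ω] [IsGalois K Ω] (W : HeightOneSpectrum (𝓞 Ω))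
    (hW : W.under (𝓞 K) = v) (g : Ω ≃ₐ[K] Ω)
    (hg : ∀ x : 𝓞 Ω, W.valuation Ω (g (x : Ω) - (x : Ω)) < 1) (y : L₁) :
    g (algebraMap L Ω (algebraMap L₁ L y)) = algebraMap L Ω (algebraMap L₁ L y) := by
  let i : Algebra L₁ Ω := ((algebraMap L Ω).comp (algebraMap L₁ L)).toAlgebra
  have hi : IsScalarTower K L₁ Ω := IsScalarTower.of_algebraMap_eq fun x => by
    show algebraMap K Ω x = algebraMap L Ω (algebraMap L₁ L (algebraMap K L₁ x))
    rw [← IsScalarTower.algebraMap_apply K L₁ L, ← IsScalarTower.algebraMap_apply K L Ω]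
  exact h Ω W hW g hg y

/-- JOB SH-LL -/
theorem ll : Pool.Agent.Q5.SH.J_LL := by
  intro hLT K _ _ T v
  classical
  induction T using Finset.induction_on with
  | empty =>
    intro _ _ _
    refine ⟨K, inferInstance, inferInstance, Algebra.id K, ?_, fun x _ t ht => absurd ht (by simp)⟩
    intro Ω _ _ i1 i2 hi _ W _ g _ y
    have h1 : @algebraMap K Ω _ _ i1 y = @algebraMap K Ω _ _ i2 y :=
      @IsScalarTower.algebraMap_apply K K Ω _ _ _ (Algebra.id K) i2 i1 hi y
    exact (congrArg g h1.symm).trans ((@AlgEquiv.commutes K Ω Ω _ _ _ i1 i1 g y).trans h1)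
  | insert t T ht ih =>
    intro hv hnp hun
    rw [Finset.mem_insert, not_or] at hv
    obtain ⟨L₁, _, _, _, hin₁, hg₁⟩ := ih hv.2 (fun s hs => hnp s (Finset.mem_insert_of_mem hs))
      (fun s hs => hun s (Finset.mem_insert_of_mem hs))
    obtain ⟨L₂, _, _, _, hfr, htot, hin₂⟩ := hLT K t v hv.1 (hnp t (Finset.mem_insert_self _ _))
      (hun t (Finset.mem_insert_self _ _))
    obtain ⟨L, _, _, _, e₁, e₂, hL⟩ := composite K L₁ L₂
    let a₁ : Algebra L₁ L := e₁.toRingHom.toAlgebra
    let a₂ : Algebra L₂ L := e₂.toRingHom.toAlgebra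
    have s₁ : IsScalarTower K L₁ L := IsScalarTower.of_algebraMap_eq fun x => (e₁.commutes x).symm
    have s₂ : IsScalarTower K L₂ L := IsScalarTower.of_algebraMap_eq fun x => (e₂.commutes x).symm
    refine ⟨L, inferInstance, inferInstance, inferInstance, ?_, ?_⟩
    · intro Ω _ _ _ _ _ _ W hW g hg y
      have h1 := hL Ω ((g : Ω →ₐ[K] Ω).comp (IsScalarTower.toAlgHom K L Ω)) (IsScalarTower.toAlgHom K L Ω)
        (fun x => tri hin₁ Ω W hW g hg x) (fun x => tri hin₂ Ω W hW g hg x)
      exact DFunLike.congr_fun h1 y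
    · intro x hx s hs
      rw [Finset.mem_insert] at hs
      rcases hs with rfl | hs
      · rw [← nu_tower (L₁ := L₂)]
        obtain ⟨x₀, h1, h2⟩ := Pool.Agent.Q222.SG.np K L₂ s htot (nu L₂ L x) (by
          intro w hw
          apply norm_unit
          intro u hu
          apply hx
          rw [← under_tower (L₁ := L₂), hu, hw]
          exact Finset.mem_insert_self _ _)
        rw [mem_OneAt]
        have h3 := Pool.Agent.Q170.SG.fermat s (x₀ : K) h1
        rw [← hfr] at h3
        set z : K := (x₀ : K) ^ finrank K L₂ with hz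
        have hz1 : s.valuation K z = 1 := by rw [hz, map_pow, h1, one_pow]
        have hz0 : z ≠ 0 := pow_ne_zero _ x₀.ne_zero
        have h4 : (nu K L₂ (nu L₂ L x) : K) - 1 = z * ((nu K L₂ (nu L₂ L x) : K) / z - 1) + (z - 1) := by
          field_simp
          ring
        rw [h4]
        refine lt_of_le_of_lt (Valuation.map_add _ _ _) (max_lt ?_ h3)
        rw [map_mul, hz1, one_mul]
        exact h2
      · rw [← nu_tower (L₁ := L₁)]
        apply hg₁ (nu L₁ L x) _ s hs
        intro w hw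
        apply norm_unit
        intro u hu
        apply hx
        rw [← under_tower (L₁ := L₁), hu]
        exact Finset.mem_insert_of_mem hw

end Pool.Agent.Q198.SH
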