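import Pool.Agent.Q5.SH.Base
import Pool.Agent.Q5.SH.Stm

/-!
# Project SH (helper5), job UT: a character modulo `T` is the Artin character of a character unramified
outside `T`
-/

set_option autoImplicit false

namespace Pool.Agent.Q198.SH

open NumberField IsDedekindDomain Module
open Pool.Agent.Q5.SH Pool.Agent.Q5.SG
open Pool.Agent.Q92.AR (Dv prin Pr Ray art)

/-- JOB SH-UT -/
theorem ut : Pool.Agent.Q5.SH.J_UT := by
  intro hLL hBC K _ _ T χ hnp hun hray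
  classical
  obtain ⟨N, hNd⟩ : ∃ N, N = ∏ t ∈ T, Ideal.absNorm t.asIdeal := ⟨_, rfl⟩
  have hN : N ≠ 0 := by
    rw [hNd]
    exact Finset.prod_ne_zero_iff.2 fun t ht => (hnp t ht).ne_zero
  have hNT : ∀ t ∈ T, (N : 𝓞 K) ∈ t.asIdeal := by
    intro t ht
    obtain ⟨c, hc⟩ : Ideal.absNorm t.asIdeal ∣ N := by
      rw [hNd]
      exact Finset.dvd_prod_of_mem (fun t : HeightOneSpectrum (𝓞 K) => Ideal.absNorm t.asIdeal) ht
    rw [hc, Nat.cast_mul]
    exact t.asIdeal.mul_mem_right _ (Ideal.absNorm_mem _)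
  obtain ⟨M, _, _, _, _, ψ, N', hN', hNN', hRam, hψ⟩ := Pool.Agent.Q20.EX.all_EXI K N χ hN (by
      intro x hx
      refine hray x fun t ht => ?_
      rw [mem_OneAt]
      refine lt_of_le_of_lt (hx.1 t (hNT t ht)) ?_
      have h := (t.valuation_lt_one_iff_mem (K := K) (N : 𝓞 K)).2 (hNT t ht)
      simpa using h)
  obtain ⟨M₁, _, _, _, _, ψ₁, hinj, hRam₁, hψ₁⟩ := b_IJ K M ψ N' hN' hRam
  have hχ₁ : ∀ D ∈ Pr K N', art ψ₁ D = χ D := fun D hD => (hψ₁ D hD).trans (hψ D hD)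
  refine ⟨M₁, _, inferInstance, inferInstance, inferInstance, ψ₁, N', hinj, hN', hRam₁, hχ₁, ?_⟩
  intro v hv
  obtain ⟨L, _, _, _, hin, hnorm⟩ := hLL K T v hv hnp hun
  exact hBC K L M₁ ψ₁ hinj N' hN' hRam₁ χ hχ₁ T hray hnorm v hin

end Pool.Agent.Q198.SH
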